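import Pool.Agent.Helper28.TL.StV

/-!
# Project TL-V, module EG: the function of a matrix given by a symbol, with a sign
-/

set_option autoImplicit false

namespace Pool.Agent.Helper71.TLV

open Pool.Agent.Helper28.TL Pool.Agent.Helper28.WK Pool.Agent.Helper28.LV Pool.Agent.Helper4.TL
open Pool.Agent.Helper14.CV

/-- The functional `P ↦ ∑ coeff P s * D s`. -/
private noncomputable def Lf {K : Type} [Field K] (N : ℕ) (D : ℕ → K) : Polynomial K →ₗ[K] K :=
  ∑ s ∈ Finset.range N, (D s) • Polynomial.lcoeff K s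

private theorem Lf_apply {K : Type} [Field K] (N : ℕ) (D : ℕ → K) (P : Polynomial K) :
    Lf N D P = ∑ s ∈ Finset.range N, P.coeff s * D s := by
  simp only [Lf, LinearMap.sum_apply, LinearMap.smul_apply, Polynomial.lcoeff_apply, smul_eq_mul]
  exact Finset.sum_congr rfl fun s _ => mul_comm _ _

private theorem Lf_mono {K : Type} [Field K] (N : ℕ) (D : ℕ → K) (c : K) (k : ℕ) (hk : k < N) :
    Lf N D (Polynomial.C c * Polynomial.X ^ k) = c * D k := by
  rw [Lf_apply, Finset.sum_eq_single k]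
  · rw [Polynomial.coeff_C_mul_X_pow, if_pos rfl]
  · intro s _ hs
    rw [Polynomial.coeff_C_mul_X_pow, if_neg hs, zero_mul]
  · intro h
    exact absurd (Finset.mem_range.mpr hk) h

theorem hEG : VEG := by
  intro p _ a Φ e he v1 v2 w1 w2 α β γ δ hv hw h
  have hE : ∀ (v1 v2 w1 w2 : ℤ) (α β γ δ : ℚ_[p]), EGf a Φ v1 v2 w1 w2 α β γ δ =
      Lf (2 * a + 1) (fun s => ((Φ w1 w2 s - Φ v1 v2 s : ℤ_[p]) : ℚ_[p]))
        ((Polynomial.C α * Polynomial.X + Polynomial.C β) ^ a *
          (Polynomial.C γ * Polynomial.X + Polynomial.C δ) ^ a) := by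
    intro v1 v2 w1 w2 α β γ δ
    rw [Lf_apply]
    rfl
  have h1 := h.diff hw hv
  set P : Polynomial ℤ := (Polynomial.C α * Polynomial.X + Polynomial.C β) ^ a *
    (Polynomial.C γ * Polynomial.X + Polynomial.C δ) ^ a with hP
  have h2 : ((e : ℤ) : ℤ_[p]) * (Φ (α * w1 + β * w2) (γ * w1 + δ * w2) a -
      Φ (α * v1 + β * v2) (γ * v1 + δ * v2) a) = pr Φ P w1 w2 - pr Φ P v1 v2 := by
    simp only [act, cp, Pi.smul_apply, zsmul_eq_mul] at h1
    rw [h1]
    rcases he with rfl | rfl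
    · push_cast
      ring
    · push_cast
      ring
  rw [h2]
  have hdeg : P.natDegree < 2 * a + 1 := by
    have d1 : ((Polynomial.C α * Polynomial.X + Polynomial.C β) ^ a).natDegree ≤ a * 1 :=
      Polynomial.natDegree_pow_le_of_le a Polynomial.natDegree_linear_le
    have d2 : ((Polynomial.C γ * Polynomial.X + Polynomial.C δ) ^ a).natDegree ≤ a * 1 :=
      Polynomial.natDegree_pow_le_of_le a Polynomial.natDegree_linear_le
    have d3 := Polynomial.natDegree_mul_le_of_le d1 d2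
    rw [hP]
    omega
  have hmap : (Polynomial.C (α : ℚ_[p]) * Polynomial.X + Polynomial.C (β : ℚ_[p])) ^ a *
      (Polynomial.C (γ : ℚ_[p]) * Polynomial.X + Polynomial.C (δ : ℚ_[p])) ^ a =
      P.map (Int.castRingHom ℚ_[p]) := by
    rw [hP]
    simp only [Polynomial.map_mul, Polynomial.map_pow, Polynomial.map_add, Polynomial.map_C,
      Polynomial.map_X, Int.coe_castRingHom]
  rw [hE, hmap, Lf_apply, pr_eq_sum Φ P _ hdeg]
  simp only [Finset.sum_apply, Pi.smul_apply, cp]
  rw [← Finset.sum_sub_distrib]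
  have hsum : ∀ F : ℕ → ℤ_[p], ((∑ s ∈ Finset.range (2 * a + 1), F s : ℤ_[p]) : ℚ_[p]) =
      ∑ s ∈ Finset.range (2 * a + 1), (F s : ℚ_[p]) := fun F =>
    map_sum PadicInt.Coe.ringHom F _
  rw [hsum]
  refine Finset.sum_congr rfl fun s _ => ?_
  rw [Polynomial.coeff_map]
  simp only [zsmul_eq_mul, eq_intCast]
  push_cast
  ring

end Pool.Agent.Helper71.TLV
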